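import Pool.Agent.Q264.SidExp

/-!
# Sidorenko exponents of higher-uniformity tight cycles

For every `r ≥ 4` (indeed every `r ≥ 2`) there is a constant `K` with
`s(C^{(r)}_{rℓ}) ≤ K · rℓ` for all `ℓ ≥ 2`.
-/

open Finset
open scoped Classical

namespace Pool.Agent.Results.MP_c1a6cd_co.TightCycles

open Pool.Agent.Q264.SidExp

/-- the edge `{i, i+1, …, i+r-1}` of the tight cycle on `ℤ/nℤ` -/
noncomputable def tightEdge (n r : ℕ) (i : ZMod n) : Finset (ZMod n) :=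
  univ.image (fun a : Fin r => i + ((a : ℕ) : ZMod n))

lemma mem_tightEdge (n r : ℕ) (i v : ZMod n) :
    v ∈ tightEdge n r i ↔ ∃ a : Fin r, i + ((a : ℕ) : ZMod n) = v := by
  unfold tightEdge
  simp

lemma mod_add_val (n r : ℕ) (hn : 0 < n) (hd : r ∣ n) (i : ZMod n) (a : ℕ) :
    (i + (a : ZMod n)).val % r = (i.val + a) % r := by
  haveI : NeZero n := ⟨hn.ne'⟩
  rw [ZMod.val_add, ZMod.val_natCast, Nat.mod_mod_of_dvd _ hd, Nat.add_mod,
    Nat.mod_mod_of_dvd _ hd, ← Nat.add_mod]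

lemma mod_inj (r x : ℕ) (a b : Fin r) (h : (x + a) % r = (x + b) % r) : a = b := by
  have h1 : (a : ℕ) ≡ b [MOD r] := Nat.ModEq.add_left_cancel' x h
  have h2 : (a : ℕ) % r = b % r := h1
  rw [Nat.mod_eq_of_lt a.2, Nat.mod_eq_of_lt b.2] at h2
  exact Fin.ext h2

lemma tightEdge_card (n r : ℕ) (hn : 0 < n) (hd : r ∣ n) (i : ZMod n) :
    (tightEdge n r i).card = r := by
  unfold tightEdge
  rw [Finset.card_image_of_injective, Finset.card_univ, Fintype.card_fin]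
  intro a b hab
  have h1 : (i + ((a : ℕ) : ZMod n)).val % r = (i + ((b : ℕ) : ZMod n)).val % r := by
    simp only at hab
    rw [hab]
  rw [mod_add_val n r hn hd, mod_add_val n r hn hd] at h1
  exact mod_inj r _ a b h1

/-- the `r`-uniform tight cycle `C^{(r)}_{rℓ}`: vertices `ℤ/rℓℤ`, edges `{i, i+1, …, i+r-1}` -/
noncomputable def tightCycle (r ℓ : ℕ) (hr : 0 < r) (hl : 0 < ℓ) : RGraph r where
  V := ZMod (r * ℓ)
  fin := by
    haveI : NeZero (r * ℓ) := ⟨(Nat.mul_pos hr hl).ne'⟩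
    exact ZMod.fintype (r * ℓ)
  edges := by
    haveI : NeZero (r * ℓ) := ⟨(Nat.mul_pos hr hl).ne'⟩
    exact univ.image (tightEdge (r * ℓ) r)
  card_edge := by
    intro e he
    haveI : NeZero (r * ℓ) := ⟨(Nat.mul_pos hr hl).ne'⟩
    obtain ⟨i, _, rfl⟩ := Finset.mem_image.1 he
    exact tightEdge_card _ r (Nat.mul_pos hr hl) (Dvd.intro ℓ rfl) i

lemma mem_edges (r ℓ : ℕ) (hr : 0 < r) (hl : 0 < ℓ) (e : Finset (ZMod (r * ℓ))) :
    e ∈ (tightCycle r ℓ hr hl).edges ↔ ∃ i, tightEdge (r * ℓ) r i = e := by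
  haveI : NeZero (r * ℓ) := ⟨(Nat.mul_pos hr hl).ne'⟩
  unfold tightCycle
  simp

theorem partite (r ℓ : ℕ) (hr : 0 < r) (hl : 0 < ℓ) : (tightCycle r ℓ hr hl).IsPartite := by
  have hn := Nat.mul_pos hr hl
  have hd : r ∣ r * ℓ := Dvd.intro ℓ rfl
  haveI : NeZero (r * ℓ) := ⟨hn.ne'⟩
  refine ⟨fun v : ZMod (r * ℓ) => ⟨v.val % r, Nat.mod_lt _ hr⟩, ?_⟩
  intro e he j
  obtain ⟨i, rfl⟩ := (mem_edges r ℓ hr hl e).1 he
  let φ : Fin r → Fin r := fun a => ⟨(i.val + a) % r, Nat.mod_lt _ hr⟩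
  have hφ : Function.Injective φ := by
    intro a b hab
    exact mod_inj r i.val a b (Fin.mk.inj_iff.1 hab)
  obtain ⟨a, ha⟩ := (Finite.injective_iff_surjective.1 hφ) j
  refine ⟨i + ((a : ℕ) : ZMod (r * ℓ)), ⟨?_, ?_⟩, ?_⟩
  · exact (mem_tightEdge _ r i _).2 ⟨a, rfl⟩
  · rw [← ha]
    apply Fin.ext
    exact mod_add_val _ r hn hd i a
  · rintro v ⟨hv1, hv2⟩
    obtain ⟨b, rfl⟩ := (mem_tightEdge _ r i _).1 hv1
    have h1 : φ b = j := by
      rw [← hv2]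
      apply Fin.ext
      exact (mod_add_val _ r hn hd i b).symm
    have h2 : b = a := hφ (h1.trans ha.symm)
    rw [h2]

theorem degree_le (r ℓ : ℕ) (hr : 0 < r) (hl : 0 < ℓ) (v : (tightCycle r ℓ hr hl).V) :
    (tightCycle r ℓ hr hl).degree v ≤ r := by
  have hn := Nat.mul_pos hr hl
  haveI : NeZero (r * ℓ) := ⟨hn.ne'⟩
  unfold RGraph.degree
  let w : ZMod (r * ℓ) := v
  have h1 : ((tightCycle r ℓ hr hl).edges.filter (fun e => v ∈ e)) ⊆
      (univ : Finset (Fin r)).image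
        (fun a : Fin r => tightEdge (r * ℓ) r (w - ((a : ℕ) : ZMod (r * ℓ)))) := by
    intro e he
    obtain ⟨he1, he2⟩ := Finset.mem_filter.1 he
    obtain ⟨i, rfl⟩ := (mem_edges r ℓ hr hl e).1 he1
    obtain ⟨a, ha⟩ := (mem_tightEdge _ r i w).1 he2
    refine Finset.mem_image.2 ⟨a, Finset.mem_univ _, ?_⟩
    have : i = w - ((a : ℕ) : ZMod (r * ℓ)) := by
      rw [← ha]
      exact (add_sub_cancel_right _ _).symm
    rw [← this]
  calc _ ≤ _ := Finset.card_le_card h1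
    _ ≤ (univ : Finset (Fin r)).card := Finset.card_image_le
    _ = r := by rw [Finset.card_univ, Fintype.card_fin]

theorem edges_card_le (r ℓ : ℕ) (hr : 0 < r) (hl : 0 < ℓ) :
    (tightCycle r ℓ hr hl).edges.card ≤ r * ℓ := by
  have hn := Nat.mul_pos hr hl
  haveI : NeZero (r * ℓ) := ⟨hn.ne'⟩
  have h1 : (tightCycle r ℓ hr hl).edges ⊆ (univ : Finset (ZMod (r * ℓ))).image
      (tightEdge (r * ℓ) r) := by
    intro e he
    obtain ⟨i, hi⟩ := (mem_edges r ℓ hr hl e).1 he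
    exact Finset.mem_image.2 ⟨i, Finset.mem_univ _, hi⟩
  calc _ ≤ _ := Finset.card_le_card h1
    _ ≤ (univ : Finset (ZMod (r * ℓ))).card := Finset.card_image_le
    _ = r * ℓ := by rw [Finset.card_univ, ZMod.card]

theorem result : ∀ (r : ℕ) (hr : 4 ≤ r), ∃ K : ℕ, ∀ (ℓ : ℕ) (hl : 2 ≤ ℓ),
    (tightCycle r ℓ (by omega) (by omega)).sidorenkoExponent ≤
      (((K * (r * ℓ) : ℕ) : ℝ) : EReal) := by
  intro r hr
  obtain ⟨f, hf⟩ := sidorenkoExponent_le r (by omega)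
  refine ⟨f r, fun ℓ hl => ?_⟩
  refine (hf r _ (partite r ℓ _ _) (degree_le r ℓ _ _)).trans ?_
  rw [EReal.coe_le_coe_iff]
  have := Nat.mul_le_mul_left (f r) (edges_card_le r ℓ (by omega) (by omega))
  exact_mod_cast this

end Pool.Agent.Results.MP_c1a6cd_co.TightCycles
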